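import Pool.Agent.Helper45.LGB.St2

/-!
# LGB MODULE TOP: the last term of the lower central series
-/

set_option autoImplicit false

namespace Pool.Agent.Helper37.LGB

open Pool.Agent.Helper45.LGB Pool.Agent.Helper83.RB
open scoped commutatorElement

section

variable {G : Type} [Group G]

/-- The iterated commutators of length `j` in elements of `X`. -/
private def I (X : Set G) (j : ℕ) : Set G :=
  {z | ∃ (x : ↥X) (u : List ↥X), u.length = j ∧ z = ic (x : G) (u.map Subtype.val)}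

private theorem br (X : Set G) (v : G) (u : List ↥X) :
    ic v (u.map fun y => (y : G)) = ic v (u.map Subtype.val) := by
  congr 1
  simp

private theorem ic_snoc (v : G) (u : List G) (g : G) : ic v (u ++ [g]) = ⁅ic v u, g⁆ := by
  unfold ic
  rw [List.foldl_append]
  rfl

private theorem comm_mem (k : ℕ) (a g : G) (ha : a ∈ (⊤ : Subgroup G).lowerCentralSeries k) :
    ⁅a, g⁆ ∈ (⊤ : Subgroup G).lowerCentralSeries (k + 1) := by
  rw [Subgroup.lowerCentralSeries_succ]
  exact Subgroup.commutator_mem_commutator ha (Subgroup.mem_top g)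

private theorem ic_mem (v : G) : ∀ (k : ℕ) (u : List G), u.length = k →
    ic v u ∈ (⊤ : Subgroup G).lowerCentralSeries k := by
  intro k
  induction k with
  | zero =>
    intro u _
    exact Subgroup.mem_top _
  | succ k ih =>
    intro u hu
    rcases List.eq_nil_or_concat u with h | ⟨u', g, h⟩
    · rw [h] at hu
      exact absurd hu (Nat.succ_ne_zero k).symm
    · rw [List.concat_eq_append] at h
      rw [h] at hu ⊢
      rw [ic_snoc]
      rw [List.length_append, List.length_singleton] at hu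
      exact comm_mem k _ _ (ih u' (by omega))

private theorem I_mem (X : Set G) (j : ℕ) {a : G} (ha : a ∈ I X j) :
    a ∈ (⊤ : Subgroup G).lowerCentralSeries j := by
  obtain ⟨x, u, hu, rfl⟩ := ha
  exact ic_mem _ _ _ (by rw [List.length_map]; exact hu)

private theorem I_succ (X : Set G) (j : ℕ) {a g : G} (ha : a ∈ I X j) (hg : g ∈ X) :
    ⁅a, g⁆ ∈ I X (j + 1) := by
  obtain ⟨x, u, hu, rfl⟩ := ha
  refine ⟨x, u ++ [⟨g, hg⟩], by rw [List.length_append, List.length_singleton, hu], ?_⟩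
  rw [List.map_append, List.map_singleton, ic_snoc]

/-- The first step: commutators of an element of `I X j`. -/
private theorem stepA (hBIL : StBIL) (X : Set G) (hX : Subgroup.closure X = ⊤) (j : ℕ)
    (N : Subgroup G) (hN1 : I X (j + 1) ⊆ N)
    (hN2 : (⊤ : Subgroup G).lowerCentralSeries (j + 2) ≤ N) {a : G} (ha : a ∈ I X j) (g : G) :
    ⁅a, g⁆ ∈ N := by
  obtain ⟨-, -, -, h4, -⟩ := hBIL G
  have haj := I_mem X j ha
  have key : ∀ g h : G, ⁅a, g * h⁆ * (⁅a, g⁆ * ⁅a, h⁆)⁻¹ ∈ N := fun g h =>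
    hN2 (h4 j 0 a haj g (Subgroup.mem_top g) h (Subgroup.mem_top h))
  have hg : g ∈ Subgroup.closure X := by rw [hX]; exact Subgroup.mem_top g
  induction hg using Subgroup.closure_induction with
  | mem y hy => exact hN1 (I_succ X j ha hy)
  | one => rw [commutatorElement_one_right]; exact N.one_mem
  | mul y z _ _ hy hz =>
    have h1 := key y z
    have h2 : ⁅a, y * z⁆ = (⁅a, y * z⁆ * (⁅a, y⁆ * ⁅a, z⁆)⁻¹) * (⁅a, y⁆ * ⁅a, z⁆) := by group
    rw [h2]
    exact N.mul_mem h1 (N.mul_mem hy hz)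
  | inv y _ hy =>
    have h1 := key y y⁻¹
    rw [mul_inv_cancel, commutatorElement_one_right, one_mul] at h1
    have h2 : ⁅a, y⁻¹⁆ = ⁅a, y⁆⁻¹ * ((⁅a, y⁆ * ⁅a, y⁻¹⁆)⁻¹)⁻¹ := by group
    rw [h2]
    exact N.mul_mem (N.inv_mem hy) (N.inv_mem h1)

/-- The second step: commutators of an element of `Γ j`. -/
private theorem stepB (hBIL : StBIL) (X : Set G) (hX : Subgroup.closure X = ⊤) (j : ℕ)
    (N : Subgroup G) (hN1 : I X (j + 1) ⊆ N)
    (hN2 : (⊤ : Subgroup G).lowerCentralSeries (j + 2) ≤ N)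
    (ih : (⊤ : Subgroup G).lowerCentralSeries j ≤
      Subgroup.closure (I X j ∪ ((⊤ : Subgroup G).lowerCentralSeries (j + 1) : Set G)))
    {a : G} (ha : a ∈ (⊤ : Subgroup G).lowerCentralSeries j) (g : G) : ⁅a, g⁆ ∈ N := by
  obtain ⟨-, hanti, h3, -, -⟩ := hBIL G
  have key : ∀ a ∈ (⊤ : Subgroup G).lowerCentralSeries j,
      ∀ b ∈ (⊤ : Subgroup G).lowerCentralSeries j, ⁅a * b, g⁆ * (⁅a, g⁆ * ⁅b, g⁆)⁻¹ ∈ N :=
    fun a ha b hb => hN2 (h3 j 0 a ha b hb g (Subgroup.mem_top g))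
  have main : ∀ b ∈ Subgroup.closure
      (I X j ∪ ((⊤ : Subgroup G).lowerCentralSeries (j + 1) : Set G)),
      b ∈ (⊤ : Subgroup G).lowerCentralSeries j ∧ ⁅b, g⁆ ∈ N := by
    intro b hb
    induction hb using Subgroup.closure_induction with
    | mem y hy =>
      rcases hy with hy | hy
      · exact ⟨I_mem X j hy, stepA hBIL X hX j N hN1 hN2 hy g⟩
      · exact ⟨hanti j y hy, hN2 (comm_mem (j + 1) y g hy)⟩
    | one => exact ⟨Subgroup.one_mem _, by rw [commutatorElement_one_left]; exact N.one_mem⟩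
    | mul y z _ _ hy hz =>
      refine ⟨Subgroup.mul_mem _ hy.1 hz.1, ?_⟩
      have h1 := key y hy.1 z hz.1
      have h2 : ⁅y * z, g⁆ = (⁅y * z, g⁆ * (⁅y, g⁆ * ⁅z, g⁆)⁻¹) * (⁅y, g⁆ * ⁅z, g⁆) := by group
      rw [h2]
      exact N.mul_mem h1 (N.mul_mem hy.2 hz.2)
    | inv y _ hy =>
      have hy' := Subgroup.inv_mem _ hy.1
      refine ⟨hy', ?_⟩
      have h1 := key y hy.1 y⁻¹ hy'
      rw [mul_inv_cancel, commutatorElement_one_left, one_mul] at h1
      have h2 : ⁅y⁻¹, g⁆ = ⁅y, g⁆⁻¹ * ((⁅y, g⁆ * ⁅y⁻¹, g⁆)⁻¹)⁻¹ := by group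
      rw [h2]
      exact N.mul_mem (N.inv_mem hy.2) (N.inv_mem h1)
  exact (main a (ih ha)).2

private theorem gen (hBIL : StBIL) (X : Set G) (hX : Subgroup.closure X = ⊤) (j : ℕ) :
    (⊤ : Subgroup G).lowerCentralSeries j ≤
      Subgroup.closure (I X j ∪ ((⊤ : Subgroup G).lowerCentralSeries (j + 1) : Set G)) := by
  induction j with
  | zero =>
    rw [Subgroup.lowerCentralSeries_zero, ← hX]
    refine Subgroup.closure_mono (fun x hx => Or.inl ?_)
    exact ⟨⟨x, hx⟩, [], rfl, rfl⟩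
  | succ j ih =>
    rw [Subgroup.lowerCentralSeries_succ, Subgroup.commutator_le]
    intro a ha g _
    refine stepB hBIL X hX j _ ?_ ?_ ih ha g
    · intro y hy
      exact Subgroup.subset_closure (Or.inl hy)
    · intro y hy
      exact Subgroup.subset_closure (Or.inr hy)

end

theorem hTOP (hBIL : StBIL) : StTOP := by
  intro G _ X n hX h1 h2
  by_contra hcon
  apply h2
  rw [eq_bot_iff]
  refine (gen hBIL X hX n).trans ?_
  rw [Subgroup.closure_le]
  rintro y (⟨x, u, hu, rfl⟩ | hy)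
  · by_contra hne
    refine hcon ⟨x, u, hu, fun h => hne ?_⟩
    rw [br] at h
    rw [h]
    exact Subgroup.one_mem _
  · rw [h1] at hy
    exact hy

end Pool.Agent.Helper37.LGB
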